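import Pool.Agent.H93.EN.Targets4

/-!
# Bright corners, module GI: the Green identity at interior points
-/

namespace Pool.Agent.H93.EN

open MeasureTheory Set Metric Filter Topology Pool.Agent.H93.BL
open scoped ContDiff

theorem gi (h1 : T_GL) (h2 : T_U1) (h3 : T_U3) (h4 : T_GR0) : T_GI := by
  intro ι D δ hδ x₀ hx₀ hδx k
  obtain ⟨s0, hs0, hloc⟩ := h1 ι D δ hδ x₀ hx₀ (by linarith)
  refine ⟨min s0 δ, lt_min hs0 hδ, ?_⟩
  intro η hη hsup
  set Φ := D.X x₀ with hΦ
  have hBd : Bd Φ := D.Xb x₀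
  have hInv : Inv Φ x₀ (D.κ * infDist x₀ D.B) := D.inv x₀ hx₀
  obtain ⟨hv, hv1, hv2, -, -⟩ := h2 Φ hBd δ hδ k
  set v : ℂ → ℂ := fun x => md (Ml Φ δ x) k with hvdef
  have hcs : HasCompactSupport η := by
    refine HasCompactSupport.of_support_subset_isCompact (isCompact_closedBall x₀ (min s0 δ)) ?_
    exact (subset_tsupport _).trans (hsup.trans ball_subset_closedBall)
  have hz : ∀ x, x ∉ ball x₀ (min s0 δ) → η x = 0 ∧ fderiv ℝ η x = 0 := by
    intro x hx
    have hx' : x ∉ tsupport η := fun h => hx (hsup h)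
    refine ⟨image_eq_zero_of_notMem_tsupport hx', ?_⟩
    have := (tsupport_fderiv_subset ℝ (f := η))
    exact image_eq_zero_of_notMem_tsupport (fun h => hx' (this h))
  have hin : ∀ x ∈ ball x₀ (min s0 δ), x ∈ D.P.Ω ∧ (∀ m, uX D.X δ m x = md (Ml Φ δ x) m) ∧
      (∀ m, hX D.X δ m x = md (Hl Φ δ x) m) := by
    intro x hx
    obtain ⟨a1, a2, a3⟩ := hloc x (ball_subset_ball (min_le_left _ _) hx)
    refine ⟨a1, fun m => ?_, fun m => ?_⟩
    · unfold uX
      rw [a2]
    · unfold hX
      rw [a3]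
  have hder : ∀ x ∈ ball x₀ (min s0 δ),
      fderiv ℝ v x 1 = Complex.I / 2 * (hX D.X δ (k - 1) x - hX D.X δ (k + 1) x) ∧
      fderiv ℝ v x Complex.I = 1 / 2 * (hX D.X δ (k + 1) x + hX D.X δ (k - 1) x) := by
    intro x hx
    have hd : dist x x₀ + δ < D.κ * infDist x₀ D.B := by
      have e1 : dist x x₀ < δ := lt_of_lt_of_le (mem_ball.1 hx) (min_le_right _ _)
      have e2 : D.rho x₀ = infDist x₀ D.B := rfl
      rw [e2] at hδx
      linarith
    obtain ⟨b1, b2⟩ := h3 Φ hBd x₀ _ hInv δ hδ x hd k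
    obtain ⟨-, -, c3⟩ := hin x hx
    rw [c3, c3]
    exact ⟨b1, b2⟩
  have key := h4 v η hv hη hcs
  unfold GreenId
  have i1 : ∫ x in D.P.Ω, η x * ((‖hX D.X δ (k + 1) x‖ ^ 2 - ‖hX D.X δ (k - 1) x‖ ^ 2) / 4) =
      ∫ x, η x * ((starRingEnd ℂ) (fderiv ℝ v x 1) * fderiv ℝ v x Complex.I).im := by
    rw [setIntegral_eq_integral_of_forall_compl_eq_zero]
    · refine integral_congr_ae (Eventually.of_forall fun x => ?_)
      simp only []
      by_cases hx : x ∈ ball x₀ (min s0 δ)
      · obtain ⟨b1, b2⟩ := hder x hx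
        rw [b1, b2]
        congr 1
        rw [Complex.sq_norm, Complex.sq_norm, Complex.normSq_apply, Complex.normSq_apply]
        generalize hX D.X δ (k + 1) x = a
        generalize hX D.X δ (k - 1) x = b
        rw [show Complex.I / 2 * (b - a) = ((1 / 2 : ℝ) : ℂ) * (Complex.I * (b - a)) by
          push_cast; ring, show (1 : ℂ) / 2 * (a + b) = ((1 / 2 : ℝ) : ℂ) * (a + b) by
          push_cast; ring]
        simp only [Complex.mul_re, Complex.mul_im, Complex.I_re, Complex.I_im, Complex.conj_re,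
          Complex.conj_im, Complex.add_re, Complex.add_im, Complex.sub_re, Complex.sub_im,
          Complex.ofReal_re, Complex.ofReal_im]
        ring
      · rw [(hz x hx).1, zero_mul, zero_mul]
    · intro x hx
      have : x ∉ ball x₀ (min s0 δ) := fun h => hx (hin x h).1
      rw [(hz x this).1, zero_mul]
  have i2 : ∫ x in D.P.Ω, grn D.X δ k η x =
      ∫ x, ((starRingEnd ℂ) (v x) * ((fderiv ℝ η x 1 : ℂ) * fderiv ℝ v x Complex.I -
      (fderiv ℝ η x Complex.I : ℂ) * fderiv ℝ v x 1)).im := by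
    rw [setIntegral_eq_integral_of_forall_compl_eq_zero]
    · refine integral_congr_ae (Eventually.of_forall fun x => ?_)
      simp only []
      by_cases hx : x ∈ ball x₀ (min s0 δ)
      · obtain ⟨b1, b2⟩ := hder x hx
        obtain ⟨-, c2, -⟩ := hin x hx
        unfold grn
        rw [b1, b2, c2 k]
        congr 1
        ring
      · unfold grn
        rw [(hz x hx).2]
        simp
    · intro x hx
      have : x ∉ ball x₀ (min s0 δ) := fun h => hx (hin x h).1
      unfold grn
      rw [(hz x this).2]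
      simp
  rw [i1, i2, key]

end Pool.Agent.H93.EN
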