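import Pool.Agent.H93.EN.Targets4

/-!
# Bright corners, module GRH: Green's identity in an arbitrary half plane
-/

namespace Pool.Agent.H93.EN

open MeasureTheory Set Metric Filter Topology Pool.Agent.H93.BL
open scoped ContDiff

theorem grh (h1 : T_GRH0) : T_GRH := by
  intro v η a p hv hη hηc ha hbd
  have ha2 : a.re ^ 2 + a.im ^ 2 = 1 := by
    have := Complex.sq_norm a
    rw [ha, Complex.normSq_apply] at this
    nlinarith [this]
  have ha0 : a ≠ 0 := by
    intro h
    rw [h] at ha
    simp at ha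
  -- the isometry
  let r : ℂ ≃ₗᵢ[ℝ] ℂ := rotation ⟨a, mem_sphere_zero_iff_norm.2 ha⟩
  have hr : ∀ z, r z = a * z := fun z => rfl
  let φ : ℂ → ℂ := fun z => p + a * z
  have hφ : MeasurePreserving φ volume volume := by
    have e1 : MeasurePreserving (fun z => r z) volume volume := r.measurePreserving
    exact (measurePreserving_add_left volume p).comp e1
  let h : ℂ ≃ₜ ℂ := r.toHomeomorph.trans (Homeomorph.addLeft p)
  have hh : ∀ z, h z = φ z := fun z => rfl
  have hφe : MeasurableEmbedding φ := by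
    have : φ = h := by
      funext z
      exact (hh z).symm
    rw [this]
    exact h.measurableEmbedding
  have hφc : ContDiff ℝ 2 φ := by
    exact contDiff_const.add (contDiff_const.mul contDiff_id)
  have hφd : ∀ z, HasFDerivAt φ ((ContinuousLinearMap.mul ℝ ℂ) a) z := by
    intro z
    exact (((ContinuousLinearMap.mul ℝ ℂ) a).hasFDerivAt).const_add p
  have dv : ∀ z w, fderiv ℝ (fun z => v (φ z)) z w = fderiv ℝ v (φ z) (a * w) := by
    intro z w
    have e1 : HasFDerivAt v (fderiv ℝ v (φ z)) (φ z) :=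
      (hv.differentiable (by norm_num) (φ z)).hasFDerivAt
    have e2 := e1.comp z (hφd z)
    have e3 : fderiv ℝ (fun z => v (φ z)) z =
        (fderiv ℝ v (φ z)).comp ((ContinuousLinearMap.mul ℝ ℂ) a) := e2.fderiv
    rw [e3]
    simp
  have dη : ∀ z w, fderiv ℝ (fun z => η (φ z)) z w = fderiv ℝ η (φ z) (a * w) := by
    intro z w
    have e1 : HasFDerivAt η (fderiv ℝ η (φ z)) (φ z) :=
      (hη.differentiable (by norm_num) (φ z)).hasFDerivAt
    have e2 := e1.comp z (hφd z)
    have e3 : fderiv ℝ (fun z => η (φ z)) z =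
        (fderiv ℝ η (φ z)).comp ((ContinuousLinearMap.mul ℝ ℂ) a) := e2.fderiv
    rw [e3]
    simp
  -- real linearity
  have lc : ∀ (L : ℂ →L[ℝ] ℂ) (z : ℂ), L z = (z.re : ℂ) * L 1 + (z.im : ℂ) * L Complex.I := by
    intro L z
    conv_lhs => rw [show z = z.re • (1 : ℂ) + z.im • Complex.I by
      apply Complex.ext <;> simp]
    rw [map_add, map_smul, map_smul, Complex.real_smul, Complex.real_smul]
  have lr : ∀ (L : ℂ →L[ℝ] ℝ) (z : ℂ), L z = z.re * L 1 + z.im * L Complex.I := by
    intro L z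
    conv_lhs => rw [show z = z.re • (1 : ℂ) + z.im • Complex.I by
      apply Complex.ext <;> simp]
    rw [map_add, map_smul, map_smul, smul_eq_mul, smul_eq_mul]
  have hset : φ ⁻¹' {x | 0 < cr a (x - p)} = {x : ℂ | 0 < x.im} := by
    ext z
    simp only [mem_preimage, mem_setOf_eq, φ, cr]
    have : a.re * (p + a * z - p).im - a.im * (p + a * z - p).re = z.im := by
      simp only [add_sub_cancel_left, Complex.mul_im, Complex.mul_re]
      linear_combination z.im * ha2
    rw [this]
  have hcs : HasCompactSupport (fun z => η (φ z)) := by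
    exact hηc.comp_homeomorph h
  have key := h1 (fun z => v (φ z)) (fun z => η (φ z)) (hv.comp hφc) (hη.comp hφc) hcs (by
    intro z hz hz0
    have h1 : φ z ∈ tsupport η := by
      have := tsupport_comp_subset_preimage η (hφc.continuous)
      exact this hz
    have h2 : cr a (φ z - p) = 0 := by
      simp only [φ, cr, add_sub_cancel_left, Complex.mul_im, Complex.mul_re]
      rw [hz0]
      ring
    have h3 := hbd (φ z) h1 h2
    rw [dv, mul_one]
    exact h3)
  have hint : ∀ F : ℂ → ℝ, ∫ x in {x | 0 < cr a (x - p)}, F x =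
      ∫ z in {z : ℂ | 0 < z.im}, F (φ z) := by
    intro F
    rw [← hset]
    exact (hφ.setIntegral_preimage_emb hφe F _).symm
  rw [hint, hint]
  have e1 : ∀ z, η (φ z) * ((starRingEnd ℂ) (fderiv ℝ v (φ z) 1) *
      fderiv ℝ v (φ z) Complex.I).im =
      η (φ z) * ((starRingEnd ℂ) (fderiv ℝ (fun z => v (φ z)) z 1) *
        fderiv ℝ (fun z => v (φ z)) z Complex.I).im := by
    intro z
    rw [dv, dv, lc (fderiv ℝ v (φ z)) (a * 1), lc (fderiv ℝ v (φ z)) (a * Complex.I)]
    congr 1
    simp only [mul_one, Complex.mul_re, Complex.mul_im, Complex.I_re, Complex.I_im, Complex.conj_re,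
      Complex.conj_im, Complex.add_re, Complex.add_im, Complex.ofReal_re, Complex.ofReal_im]
    linear_combination (-((fderiv ℝ v (φ z) 1).re * (fderiv ℝ v (φ z) Complex.I).im -
      (fderiv ℝ v (φ z) 1).im * (fderiv ℝ v (φ z) Complex.I).re)) * ha2
  have e2 : ∀ z, ((starRingEnd ℂ) (v (φ z)) * ((fderiv ℝ η (φ z) 1 : ℂ) *
      fderiv ℝ v (φ z) Complex.I - (fderiv ℝ η (φ z) Complex.I : ℂ) * fderiv ℝ v (φ z) 1)).im =
      ((starRingEnd ℂ) (v (φ z)) * ((fderiv ℝ (fun z => η (φ z)) z 1 : ℂ) *
      fderiv ℝ (fun z => v (φ z)) z Complex.I - (fderiv ℝ (fun z => η (φ z)) z Complex.I : ℂ) *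
        fderiv ℝ (fun z => v (φ z)) z 1)).im := by
    intro z
    rw [dv, dv, dη, dη, lc (fderiv ℝ v (φ z)) (a * 1), lc (fderiv ℝ v (φ z)) (a * Complex.I),
      lr (fderiv ℝ η (φ z)) (a * 1), lr (fderiv ℝ η (φ z)) (a * Complex.I)]
    simp only [mul_one, Complex.mul_re, Complex.mul_im, Complex.I_re, Complex.I_im, Complex.conj_re,
      Complex.conj_im, Complex.add_re, Complex.add_im, Complex.sub_re, Complex.sub_im,
      Complex.ofReal_re, Complex.ofReal_im]
    generalize (fderiv ℝ v (φ z) 1).re = P1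
    generalize (fderiv ℝ v (φ z) 1).im = P2
    generalize (fderiv ℝ v (φ z) Complex.I).re = Q1
    generalize (fderiv ℝ v (φ z) Complex.I).im = Q2
    generalize fderiv ℝ η (φ z) 1 = m1
    generalize fderiv ℝ η (φ z) Complex.I = m2
    generalize (v (φ z)).re = v1
    generalize (v (φ z)).im = v2
    linear_combination (-(v1 * (m1 * Q2 - m2 * P2) - v2 * (m1 * Q1 - m2 * P1))) * ha2
  simp only [e1, e2]
  exact key

end Pool.Agent.H93.EN
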