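import Pool.Agent.H93.EN.Targets4

/-!
# Bright corners, module PU: partition of a test function
-/

namespace Pool.Agent.H93.EN

open MeasureTheory Set Metric Filter Topology Pool.Agent.H93.BL
open scoped ContDiff Manifold

theorem pu : T_PU := by
  intro η r hη hηc hr
  classical
  obtain ⟨t, hcov⟩ := hηc.isCompact.elim_nhds_subcover' (fun x _ => ball x (r x))
    (fun x hx => ball_mem_nhds x (hr x hx))
  let e : Fin t.card ≃ {x // x ∈ t} := t.equivFin.symm
  let c : Fin t.card → ℂ := fun i => ((e i : {x // x ∈ t}) : tsupport η)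
  have hc : ∀ i, c i ∈ tsupport η := fun i => ((e i : {x // x ∈ t}) : tsupport η).2
  obtain ⟨f, hf⟩ := SmoothPartitionOfUnity.exists_isSubordinate (𝓘(ℝ, ℂ))
    (isClosed_tsupport η) (fun i : Fin t.card => ball (c i) (r (c i)))
    (fun i => isOpen_ball) (by
      intro x hx
      have := hcov hx
      simp only [mem_iUnion] at this ⊢
      obtain ⟨y, hy, hxy⟩ := this
      exact ⟨e.symm ⟨y, hy⟩, by simpa [c] using hxy⟩)
  refine ⟨t.card, c, fun i x => η x * f i x, fun i => ⟨hc i, ?_, ?_, ?_⟩, ?_⟩
  · exact hη.mul (((f i).contMDiff.contDiff).of_le (by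
      exact WithTop.coe_le_coe.2 le_top))
  · exact (closure_mono (Function.support_mul_subset_right _ _)).trans (hf i)
  · exact closure_mono (Function.support_mul_subset_left _ _)
  · intro x
    rw [← Finset.mul_sum]
    by_cases hx : x ∈ tsupport η
    · have h1 := f.sum_eq_one hx
      rw [finsum_eq_sum_of_fintype] at h1
      rw [h1, mul_one]
    · rw [image_eq_zero_of_notMem_tsupport hx, zero_mul]

end Pool.Agent.H93.EN
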